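import Pool.Agent.X26.LF.Stm

set_option autoImplicit false

namespace Pool.Agent.X106.LF
open Finset
open Pool.Agent.X26.LF

theorem one (hC : S_CNT) (m p N : ℕ) [Fact p.Prime] (u v : Fin m → ℤ) (A : Finset (ZMod p))
    (s : ZMod p) (hm : 1 ≤ m) (hNP : NP u v p) (hF : Free v p A) (ι : Fin m ↪ Fin N)
    (K L : Finset (Fin m)) (a : Fin m → ZMod p) (ha : ∀ k ∈ K, a k ∈ A) (κ : Fin m → Fin N) :
    p ^ 2 * (univ.filter fun x : Fin N → ZMod p => ∑ j, (u j : ZMod p) * x (ι j) = s ∧
      ∑ k ∈ K, (v k : ZMod p) * a k + ∑ k ∈ L, (v k : ZMod p) * x (κ k) = 1).card ≤ p ^ N := by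
  classical
  set c : Fin N → ZMod p := fun i => ∑ j ∈ univ.filter (fun j => ι j = i), (u j : ZMod p) with hc
  set d : Fin N → ZMod p := fun i => ∑ k ∈ L.filter (fun k => κ k = i), (v k : ZMod p) with hd
  have hcx : ∀ x : Fin N → ZMod p, ∑ i, c i * x i = ∑ j, (u j : ZMod p) * x (ι j) := by
    intro x
    rw [← Finset.sum_fiberwise_of_maps_to (s := univ) (t := univ) (g := ι)
      (fun _ _ => Finset.mem_univ _)]
    refine Finset.sum_congr rfl fun i _ => ?_
    rw [hc, Finset.sum_mul]
    refine Finset.sum_congr rfl fun j hj => ?_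
    rw [(Finset.mem_filter.1 hj).2]
  have hdx : ∀ x : Fin N → ZMod p, ∑ i, d i * x i = ∑ k ∈ L, (v k : ZMod p) * x (κ k) := by
    intro x
    rw [← Finset.sum_fiberwise_of_maps_to (s := L) (t := univ) (g := κ)
      (fun _ _ => Finset.mem_univ _)]
    refine Finset.sum_congr rfl fun i _ => ?_
    rw [hd, Finset.sum_mul]
    refine Finset.sum_congr rfl fun j hj => ?_
    rw [(Finset.mem_filter.1 hj).2]
  have hci : ∀ j, c (ι j) = (u j : ZMod p) := by
    intro j
    have : univ.filter (fun j' => ι j' = ι j) = {j} := by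
      ext j'; simp
    rw [hc]; simp only [this, Finset.sum_singleton]
  have hc0 : c ≠ 0 := by
    intro h
    have := hci ⟨0, hm⟩
    rw [h] at this
    exact hNP.1 ⟨0, hm⟩ this.symm
  by_cases h : ∃ l, d = fun i => l * c i
  · obtain ⟨l, hl⟩ := h
    by_cases hl0 : l = 0
    · have : (univ.filter fun x : Fin N → ZMod p => ∑ j, (u j : ZMod p) * x (ι j) = s ∧
        ∑ k ∈ K, (v k : ZMod p) * a k + ∑ k ∈ L, (v k : ZMod p) * x (κ k) = 1) = ∅ := by
        rw [Finset.filter_eq_empty_iff]
        intro x _ hx
        have h1 := hx.2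
        rw [← hdx x, hl, hl0] at h1
        simp only [zero_mul, Finset.sum_const_zero, add_zero] at h1
        exact hF K a ha h1
      rw [this]; simp
    · exfalso
      have hsur : ∀ j, ∃ k ∈ L, κ k = ι j := by
        intro j
        by_contra hno
        push Not at hno
        have : L.filter (fun k => κ k = ι j) = ∅ := by
          rw [Finset.filter_eq_empty_iff]
          intro k hk hk'
          exact hno k hk hk'
        have h1 : d (ι j) = 0 := by rw [hd]; simp only [this, Finset.sum_empty]
        rw [hl] at h1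
        simp only [hci] at h1
        rcases mul_eq_zero.1 h1 with h2 | h2
        · exact hl0 h2
        · exact hNP.1 j h2
      choose τ hτL hτ using hsur
      have hinj : Function.Injective τ := by
        intro j j' h
        apply ι.injective
        rw [← hτ j, ← hτ j', h]
      have hbij : Function.Bijective τ := (Finite.injective_iff_bijective).1 hinj
      set σ := (Equiv.ofBijective τ hbij) with hσ
      apply hNP.2 σ.symm l
      intro i
      have h1 : d (ι (σ.symm i)) = l * (u (σ.symm i) : ZMod p) := by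
        rw [hl]; simp only [hci]
      have h2 : κ i = ι (σ.symm i) := by
        have := hτ (σ.symm i)
        have h3 : τ (σ.symm i) = i := σ.apply_symm_apply i
        rw [h3] at this
        exact this
      have h4 : L.filter (fun k => κ k = ι (σ.symm i)) = {i} := by
        ext k
        simp only [Finset.mem_filter, Finset.mem_singleton]
        constructor
        · rintro ⟨_, hk⟩
          have h5 : κ k = ι (σ.symm k) := by
            have := hτ (σ.symm k)
            have h3 : τ (σ.symm k) = k := σ.apply_symm_apply k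
            rw [h3] at this
            exact this
          rw [h5] at hk
          exact σ.symm.injective (ι.injective hk)
        · rintro rfl
          refine ⟨?_, h2⟩
          have := hτL (σ.symm k)
          have h3 : τ (σ.symm k) = k := σ.apply_symm_apply k
          rwa [h3] at this
      rw [← h1, hd]
      simp only [h4, Finset.sum_singleton]
  · have h2 := (hC p N c d s (1 - ∑ k ∈ K, (v k : ZMod p) * a k) hc0).2 h
    refine le_trans (le_of_eq ?_) h2.le
    congr 2
    ext x
    simp only [Finset.mem_filter, Finset.mem_univ, true_and]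
    rw [hcx x, hdx x]
    constructor
    · rintro ⟨h3, h4⟩; exact ⟨h3, by rw [← h4]; ring⟩
    · rintro ⟨h3, h4⟩; exact ⟨h3, by rw [h4]; ring⟩

theorem cardFix {m : ℕ} (X : Type) [Fintype X] [DecidableEq X] (k : Fin m) (x0 : X) :
    (univ.filter fun w : Fin m → X => w k = x0).card ≤ Fintype.card X ^ (m - 1) := by
  classical
  have h : (univ.filter fun w : Fin m → X => w k = x0) ⊆
      Fintype.piFinset (fun i => if i = k then ({x0} : Finset X) else univ) := by
    intro w hw
    rw [Fintype.mem_piFinset]
    intro i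
    by_cases hi : i = k
    · subst hi
      simp only [if_true, Finset.mem_singleton]
      exact (Finset.mem_filter.1 hw).2
    · simp [hi]
  refine (Finset.card_le_card h).trans ?_
  rw [Fintype.card_piFinset, ← Finset.mul_prod_erase univ _ (Finset.mem_univ k)]
  simp only [if_true, Finset.card_singleton, one_mul]
  rw [Finset.prod_congr rfl (g := fun _ => Fintype.card X)
    (fun i hi => by rw [if_neg (Finset.ne_of_mem_erase hi), Finset.card_univ])]
  rw [Finset.prod_const, Finset.card_erase_of_mem (Finset.mem_univ k), Finset.card_univ,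
    Fintype.card_fin]

open Classical in
theorem t_BAD : S_BAD := by
  intro hC m p N _ u v A s hm hNP hF
  set X := ({z // z ∈ A} ⊕ Fin N) with hX
  have hXc : Fintype.card X = A.card + N := by simp [hX]
  let val : X → ZMod p := fun y => Sum.elim (fun z => z.1) (fun _ => 0) y
  let ind : (Fin m ↪ Fin N) → Fin m → X → Fin N := fun ι j y => Sum.elim (fun _ => ι j) id y
  let I := (Fin m ↪ Fin N) × Fin m × Fin m × Finset (Fin m) × Finset (Fin m)
  let T : I → Finset (Fin m → X) := fun q => univ.filter fun w => w q.2.2.1 = Sum.inr (q.1 q.2.1)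
  let W : I → (Fin m → X) → Finset (Fin N → ZMod p) := fun q w =>
    if (∀ k ∈ q.2.2.2.1, val (w k) ∈ A) then
      univ.filter fun x : Fin N → ZMod p => ∑ j, (u j : ZMod p) * x (q.1 j) = s ∧
        ∑ k ∈ q.2.2.2.1, (v k : ZMod p) * val (w k) +
          ∑ k ∈ q.2.2.2.2, (v k : ZMod p) * x (ind q.1 q.2.1 (w k)) = 1 else ∅
  have hsub : (univ.filter fun x : Fin N → ZMod p => ∃ ι : Fin m ↪ Fin N,
      ∑ j, (u j : ZMod p) * x (ι j) = s ∧ ∃ j, Bad v p A x (ι j)) ⊆
      (univ : Finset I).biUnion fun q => (T q).biUnion (W q) := by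
    intro x hx
    obtain ⟨ι, h1, j, K, L, a, κ, hKL, haA, ⟨k, hkL, hk⟩, h2⟩ := (Finset.mem_filter.1 hx).2
    rw [Finset.mem_biUnion]
    refine ⟨(ι, j, k, K, L), Finset.mem_univ _, ?_⟩
    rw [Finset.mem_biUnion]
    refine ⟨fun i => if h : i ∈ K then Sum.inl ⟨a i, haA i h⟩ else Sum.inr (if i ∈ L then κ i else ι j), ?_, ?_⟩
    · have hkK : k ∉ K := fun h => (Finset.disjoint_left.1 hKL) h hkL
      simp only [T, Finset.mem_filter, Finset.mem_univ, true_and]
      rw [dif_neg hkK, if_pos hkL, hk]
    · have hall : ∀ i ∈ K, val (if h : i ∈ K then Sum.inl ⟨a i, haA i h⟩ else Sum.inr (if i ∈ L then κ i else ι j)) = a i := by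
        intro i hi
        rw [dif_pos hi]
        rfl
      simp only [W]
      rw [if_pos (fun i hi => by rw [hall i hi]; exact haA i hi)]
      rw [Finset.mem_filter]
      refine ⟨Finset.mem_univ _, h1, ?_⟩
      rw [← h2]
      congr 1
      · exact Finset.sum_congr rfl fun i hi => by rw [hall i hi]
      · refine Finset.sum_congr rfl fun i hi => ?_
        have hiK : i ∉ K := fun h => (Finset.disjoint_left.1 hKL) h hi
        rw [dif_neg hiK, if_pos hi]
        rfl
  have hW : ∀ q w, p ^ 2 * (W q w).card ≤ p ^ N := by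
    intro q w
    simp only [W]
    split_ifs with h
    · exact one hC m p N u v A s hm hNP hF q.1 q.2.2.2.1 q.2.2.2.2 (fun k => val (w k)) h _
    · simp
  have hI : Fintype.card I ≤ (A.card + N) ^ m * (m ^ 2 * 4 ^ m) := by
    have hE : Fintype.card (Fin m ↪ Fin N) ≤ (A.card + N) ^ m := by
      rw [Fintype.card_embedding_eq, Fintype.card_fin, Fintype.card_fin]
      exact (Nat.descFactorial_le_pow N m).trans (Nat.pow_le_pow_left (Nat.le_add_left _ _) _)
    have : Fintype.card I = Fintype.card (Fin m ↪ Fin N) * (m * (m * (2 ^ m * 2 ^ m))) := by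
      simp [I, Fintype.card_prod, Fintype.card_finset]
    rw [this]
    refine (Nat.mul_le_mul_right _ hE).trans (le_of_eq ?_)
    have h4 : (4 : ℕ) ^ m = 2 ^ m * 2 ^ m := by rw [← mul_pow]; norm_num
    rw [h4]; ring
  calc p ^ 2 * (univ.filter fun x : Fin N → ZMod p => ∃ ι : Fin m ↪ Fin N,
      ∑ j, (u j : ZMod p) * x (ι j) = s ∧ ∃ j, Bad v p A x (ι j)).card
      ≤ p ^ 2 * ((univ : Finset I).biUnion fun q => (T q).biUnion (W q)).card :=
        Nat.mul_le_mul_left _ (Finset.card_le_card hsub)
    _ ≤ p ^ 2 * ∑ q : I, ∑ w ∈ T q, (W q w).card :=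
        Nat.mul_le_mul_left _ ((Finset.card_biUnion_le).trans
          (Finset.sum_le_sum fun q _ => Finset.card_biUnion_le))
    _ = ∑ q : I, ∑ w ∈ T q, p ^ 2 * (W q w).card := by
        rw [Finset.mul_sum]
        exact Finset.sum_congr rfl fun q _ => Finset.mul_sum _ _ _
    _ ≤ ∑ q : I, ∑ w ∈ T q, p ^ N :=
        Finset.sum_le_sum fun q _ => Finset.sum_le_sum fun w _ => hW q w
    _ ≤ ∑ _q : I, (A.card + N) ^ (m - 1) * p ^ N := by
        refine Finset.sum_le_sum fun q _ => ?_
        rw [Finset.sum_const, smul_eq_mul]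
        refine Nat.mul_le_mul_right _ ?_
        rw [← hXc]
        exact cardFix X q.2.2.1 _
    _ = Fintype.card I * ((A.card + N) ^ (m - 1) * p ^ N) := by
        rw [Finset.sum_const, smul_eq_mul, Finset.card_univ]
    _ ≤ ((A.card + N) ^ m * (m ^ 2 * 4 ^ m)) * ((A.card + N) ^ (m - 1) * p ^ N) :=
        Nat.mul_le_mul_right _ hI
    _ = m ^ 2 * 4 ^ m * (A.card + N) ^ (2 * m - 1) * p ^ N := by
        have h5 : 2 * m - 1 = m + (m - 1) := by omega
        rw [h5, pow_add]; ring

end Pool.Agent.X106.LF
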