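import Pool.Agent.X26.LF.Stm

set_option autoImplicit false

namespace Pool.Agent.X106.LF
open Finset

theorem step (S : Finset ℕ) : (∀ p ∈ S, p.Prime) →
    (1 + ∑ p ∈ S, (1 : ℝ) / p) * ∏ p ∈ S, ((p : ℝ) - 1) ≤ ∏ p ∈ S, (p : ℝ) := by
  induction S using Finset.induction_on with
  | empty => intro _; simp
  | insert a S ha ih =>
    intro h
    have hp : a.Prime := h a (Finset.mem_insert_self _ _)
    have ih' := ih fun p hp => h p (Finset.mem_insert_of_mem hp)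
    rw [Finset.sum_insert ha, Finset.prod_insert ha, Finset.prod_insert ha]
    have h2 : (2 : ℝ) ≤ a := by exact_mod_cast hp.two_le
    have hs : 0 ≤ ∑ p ∈ S, (1 : ℝ) / p := Finset.sum_nonneg fun _ _ => by positivity
    have hQ : 0 ≤ ∏ p ∈ S, ((p : ℝ) - 1) := Finset.prod_nonneg fun p hp => by
      have := (h p (Finset.mem_insert_of_mem hp)).one_le
      have : (1 : ℝ) ≤ p := by exact_mod_cast this
      linarith
    have h3 : (1 + (1 / (a : ℝ) + ∑ p ∈ S, (1 : ℝ) / p)) * ((a : ℝ) - 1) ≤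
        a * (1 + ∑ p ∈ S, (1 : ℝ) / p) := by
      have h4 : 1 / (a : ℝ) * a = 1 := by field_simp
      have h5 : 0 < 1 / (a : ℝ) := by positivity
      nlinarith
    calc (1 + (1 / (a : ℝ) + ∑ p ∈ S, (1 : ℝ) / p)) * (((a : ℝ) - 1) * ∏ p ∈ S, ((p : ℝ) - 1))
        = ((1 + (1 / (a : ℝ) + ∑ p ∈ S, (1 : ℝ) / p)) * ((a : ℝ) - 1)) *
          ∏ p ∈ S, ((p : ℝ) - 1) := by ring
      _ ≤ (a * (1 + ∑ p ∈ S, (1 : ℝ) / p)) * ∏ p ∈ S, ((p : ℝ) - 1) :=
          mul_le_mul_of_nonneg_right h3 hQ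
      _ = a * ((1 + ∑ p ∈ S, (1 : ℝ) / p) * ∏ p ∈ S, ((p : ℝ) - 1)) := by ring
      _ ≤ _ := mul_le_mul_of_nonneg_left ih' (by positivity)

theorem t_PRD : Pool.Agent.X26.LF.S_PRD := by
  intro P K
  set f : ℕ → ℝ := Set.indicator {p : ℕ | p.Prime} (fun n : ℕ => (1 : ℝ) / n) with hf
  have hf0 : ∀ n, 0 ≤ f n := fun n => Set.indicator_nonneg (fun _ _ => by positivity) n
  have ht := (not_summable_iff_tendsto_nat_atTop_of_nonneg hf0).1 not_summable_one_div_on_primes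
  obtain ⟨N, hN, hPN⟩ := ((ht.eventually_gt_atTop ((K : ℝ) + ∑ i ∈ range P, f i)).and
    (Filter.eventually_ge_atTop P)).exists
  refine ⟨(Finset.Ico P N).filter Nat.Prime, fun p hp => ?_, ?_⟩
  · rw [Finset.mem_filter, Finset.mem_Ico] at hp
    exact ⟨hp.2, hp.1.1⟩
  · set S := (Finset.Ico P N).filter Nat.Prime with hS
    have hpr : ∀ p ∈ S, p.Prime := fun p hp => (Finset.mem_filter.1 hp).2
    have h1 : ∑ p ∈ S, (1 : ℝ) / p = ∑ i ∈ Finset.Ico P N, f i := by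
      rw [hS, Finset.sum_filter]
      refine Finset.sum_congr rfl fun i _ => ?_
      simp only [hf, Set.indicator_apply, Set.mem_setOf_eq]
    have h2 : (K : ℝ) < ∑ p ∈ S, (1 : ℝ) / p := by
      rw [h1, Finset.sum_Ico_eq_sub _ hPN]
      linarith
    have h3 := step S hpr
    have hQ : 0 < ∏ p ∈ S, ((p : ℝ) - 1) := Finset.prod_pos fun p hp => by
      have : (2 : ℝ) ≤ p := by exact_mod_cast (hpr p hp).two_le
      linarith
    have h4 : (K : ℝ) * ∏ p ∈ S, ((p : ℝ) - 1) < ∏ p ∈ S, (p : ℝ) := by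
      refine lt_of_lt_of_le ?_ h3
      exact mul_lt_mul_of_pos_right (by linarith) hQ
    have h5 : ((K * ∏ p ∈ S, (p - 1) : ℕ) : ℝ) < ((∏ p ∈ S, p : ℕ) : ℝ) := by
      push_cast
      convert h4 using 2
      refine Finset.prod_congr rfl fun p hp => ?_
      rw [Nat.cast_sub (hpr p hp).one_le, Nat.cast_one]
    exact_mod_cast h5

end Pool.Agent.X106.LF
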