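import Pool.Agent.X26.LF.Stm

set_option autoImplicit false

namespace Pool.Agent.X106.LF
open Filter Topology

theorem logBig (k C : ℕ) : ∃ P : ℕ, ∀ p : ℕ, P ≤ p → C * (Nat.log 2 p + 2) ^ k ≤ p := by
  have h := tendsto_pow_const_div_const_pow_of_one_lt k (r := (2 : ℝ)) (by norm_num)
  have h2 : ∀ᶠ n : ℕ in atTop, (n : ℝ) ^ k / 2 ^ n < 1 / (4 * C + 4) :=
    h.eventually_lt_const (by positivity)
  obtain ⟨n0, hn0⟩ := eventually_atTop.1 h2
  refine ⟨2 ^ n0, fun p hp => ?_⟩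
  have hp0 : p ≠ 0 := by
    have : 0 < 2 ^ n0 := by positivity
    omega
  have hn : n0 ≤ Nat.log 2 p := Nat.le_log_of_pow_le (by norm_num) hp
  have h3 := hn0 (Nat.log 2 p + 2) (by omega)
  have h4 : 2 ^ Nat.log 2 p ≤ p := Nat.pow_log_le_self 2 hp0
  refine le_trans ?_ h4
  rw [div_lt_div_iff₀ (by positivity) (by positivity), pow_add] at h3
  have h5 : (C : ℝ) * ((Nat.log 2 p + 2 : ℕ) : ℝ) ^ k ≤ 2 ^ Nat.log 2 p := by
    have : (0 : ℝ) ≤ ((Nat.log 2 p + 2 : ℕ) : ℝ) ^ k := by positivity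
    nlinarith
  exact_mod_cast h5

theorem t_SIZ : Pool.Agent.X26.LF.S_SIZ := by
  intro m C hm
  set C1 : ℕ := 2 ^ m * (C + m ^ m) with hC1
  obtain ⟨P, hP⟩ := logBig ((2 * m - 1) * m) (C ^ m * C1 ^ (2 * m - 1))
  refine ⟨P + 1, fun p hp => ?_⟩
  have hp1 : 1 ≤ p := by omega
  have hex : ∃ N : ℕ, C * p ≤ N.descFactorial m := by
    refine ⟨C * p + m, ?_⟩
    have h1 := Nat.pow_sub_le_descFactorial (C * p + m) m
    refine le_trans ?_ h1
    have h2 : C * p ≤ C * p + m + 1 - m := by omega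
    refine h2.trans ?_
    exact Nat.le_self_pow (by omega) _
  classical
  set N := Nat.find hex with hN
  have hN1 : C * p ≤ N.descFactorial m := Nat.find_spec hex
  refine ⟨N, hN1, ?_⟩
  have hNm : N ^ m ≤ C1 * p := by
    by_cases hle : N ≤ 2 * m
    · have : N ^ m ≤ (2 * m) ^ m := Nat.pow_le_pow_left hle m
      refine this.trans ?_
      rw [mul_pow, hC1]
      calc 2 ^ m * m ^ m ≤ 2 ^ m * (C + m ^ m) := Nat.mul_le_mul_left _ (Nat.le_add_left _ _)
        _ ≤ 2 ^ m * (C + m ^ m) * p := Nat.le_mul_of_pos_right _ hp1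
    · have h1 : ¬ C * p ≤ (N - 1).descFactorial m := Nat.find_min hex (by omega)
      have h2 := Nat.pow_sub_le_descFactorial (N - 1) m
      have h3 : (N - m) ^ m < C * p := by
        have h4 : N - 1 + 1 - m = N - m := by omega
        rw [h4] at h2
        omega
      have h5 : N ^ m ≤ (2 * (N - m)) ^ m := Nat.pow_le_pow_left (by omega) m
      refine h5.trans ?_
      rw [mul_pow, hC1]
      calc 2 ^ m * (N - m) ^ m ≤ 2 ^ m * (C * p) := Nat.mul_le_mul_left _ h3.le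
        _ ≤ 2 ^ m * ((C + m ^ m) * p) := Nat.mul_le_mul_left _ (Nat.mul_le_mul_right _ (Nat.le_add_right _ _))
        _ = 2 ^ m * (C + m ^ m) * p := by ring
  have hfin := hP p (by omega)
  have key : (C * ((Nat.log 2 p + 2) * N) ^ (2 * m - 1)) ^ m ≤ (p ^ 2) ^ m := by
    calc (C * ((Nat.log 2 p + 2) * N) ^ (2 * m - 1)) ^ m
        = C ^ m * (Nat.log 2 p + 2) ^ ((2 * m - 1) * m) * (N ^ m) ^ (2 * m - 1) := by
          rw [mul_pow, mul_pow, mul_pow, ← pow_mul, ← pow_mul, ← pow_mul, mul_comm m (2 * m - 1)]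
          ring
      _ ≤ C ^ m * (Nat.log 2 p + 2) ^ ((2 * m - 1) * m) * (C1 * p) ^ (2 * m - 1) :=
          Nat.mul_le_mul_left _ (Nat.pow_le_pow_left hNm _)
      _ = (C ^ m * C1 ^ (2 * m - 1) * (Nat.log 2 p + 2) ^ ((2 * m - 1) * m)) * p ^ (2 * m - 1) := by
          rw [mul_pow]; ring
      _ ≤ p * p ^ (2 * m - 1) := Nat.mul_le_mul_right _ hfin
      _ = (p ^ 2) ^ m := by
          rw [← pow_succ', ← pow_mul]
          congr 1
          omega
  exact (Nat.pow_le_pow_iff_left (by omega)).1 key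

end Pool.Agent.X106.LF
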